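import Pool.Agent.H23.CMC.Targets
import Pool.Agent.H2.CM4.KSM

/-!
# Row G_KSM of the board cm4_modules: the smoothed sums, with weights
-/

set_option autoImplicit false

open NumberField MeasureTheory Set Filter Complex
open scoped nonZeroDivisors Real
open Pool.Agent.H23.CMC
open Pool.Agent.H65.CM4 (Sq nm dg Pl rv)
open Pool.Agent.H65.CMC (Emb ty PrTo IsHk ms IsLk gg GM cG Km Idx cdc Fmc lc)
open Pool.Agent.H23.CM4 (nJ Jd Nr wB)
open Pool.Agent.H23.LC (HG ag)

namespace Pool.Agent.H72.CMC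

/-- the size of the Gamma factor of a place on the line `Re = 2` -/
theorem ksm_gg (m : ℤ) (t : ℝ) :
    ‖gg m (2 + t * I)‖ ≤ Real.Gamma (2 + ((|m| : ℤ) : ℝ)) * (2 + |t|) ^ 2 := by
  have hm0 : (0 : ℝ) ≤ ((|m| : ℤ) : ℝ) := by exact_mod_cast abs_nonneg m
  have hre : (2 + (t : ℂ) * I + ((|m| : ℤ) : ℂ)).re = 2 + ((|m| : ℤ) : ℝ) := by
    simp
  have hw1 : ‖(2 : ℂ) + t * I‖ ≤ 2 + |t| := by
    refine (norm_add_le _ _).trans ?_
    rw [norm_mul, Complex.norm_I, mul_one, Complex.norm_real, Real.norm_eq_abs]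
    norm_num
  have hw2 : ‖(2 : ℂ) + t * I - 1‖ ≤ 2 + |t| := by
    have : (2 : ℂ) + t * I - 1 = 1 + t * I := by ring
    rw [this]
    refine (norm_add_le _ _).trans ?_
    rw [norm_mul, Complex.norm_I, mul_one, Complex.norm_real, Real.norm_eq_abs, norm_one]
    linarith
  have hG : ‖Complex.Gamma (2 + t * I + ((|m| : ℤ) : ℂ))‖ ≤ Real.Gamma (2 + ((|m| : ℤ) : ℝ)) := by
    have := Pool.Agent.H2.CM4.ksm_norm_Gamma (s := 2 + t * I + ((|m| : ℤ) : ℂ))
      (by rw [hre]; linarith)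
    rw [hre] at this
    exact this
  have hp : ‖(2 * (π : ℂ)) ^ (-(2 + (t : ℂ) * I))‖ ≤ 1 := by
    have h1 : (2 * (π : ℂ)) = ((2 * π : ℝ) : ℂ) := by push_cast; ring
    rw [h1, Complex.norm_cpow_eq_rpow_re_of_pos (by positivity)]
    have h2 : (-(2 + (t : ℂ) * I)).re = -2 := by simp
    rw [h2]
    apply Real.rpow_le_one_of_one_le_of_nonpos _ (by norm_num)
    nlinarith [Real.pi_gt_three]
  unfold gg
  rw [norm_mul, norm_mul, norm_mul]
  have ht : 0 ≤ 2 + |t| := by positivity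
  have hGp : 0 < Real.Gamma (2 + ((|m| : ℤ) : ℝ)) := Real.Gamma_pos_of_pos (by linarith)
  calc ‖(2 : ℂ) + t * I‖ * ‖(2 : ℂ) + t * I - 1‖ * ‖Complex.Gamma (2 + t * I + ((|m| : ℤ) : ℂ))‖ *
        ‖(2 * (π : ℂ)) ^ (-(2 + (t : ℂ) * I))‖
      ≤ (2 + |t|) * (2 + |t|) * Real.Gamma (2 + ((|m| : ℤ) : ℝ)) * 1 := by
        gcongr
    _ = Real.Gamma (2 + ((|m| : ℤ) : ℝ)) * (2 + |t|) ^ 2 := by ring

/-- the size of the Gamma factor on the line `Re = 2` -/
theorem ksm_GM {k : Type} [Field k] [NumberField k] (m : Pl k → ℤ) : ∃ C : ℝ, 0 ≤ C ∧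
    ∀ t : ℝ, ‖GM m (2 + t * I)‖ ≤ C * ((2 + |t|) ^ 2) ^ Fintype.card (Pl k) := by
  refine ⟨∏ v : Pl k, Real.Gamma (2 + ((|m v| : ℤ) : ℝ)), ?_, ?_⟩
  · refine Finset.prod_nonneg fun v _ => ?_
    have hm0 : (0 : ℝ) ≤ ((|m v| : ℤ) : ℝ) := by exact_mod_cast abs_nonneg (m v)
    exact (Real.Gamma_pos_of_pos (by linarith)).le
  · intro t
    unfold GM
    rw [norm_prod, ← Finset.card_univ, ← Finset.prod_const, ← Finset.prod_mul_distrib]
    exact Finset.prod_le_prod (fun v _ => norm_nonneg _) fun v _ => ksm_gg (m v) t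

/-- the Gamma factor is continuous -/
theorem ksm_cont {k : Type} [Field k] [NumberField k] (m : Pl k → ℤ) (w : ℂ) (hw : 0 < w.re) :
    ContinuousAt (fun w : ℂ => GM m w) w := by
  unfold GM
  apply tendsto_finset_prod
  intro v _
  have hm0 : (0 : ℝ) ≤ ((|m v| : ℤ) : ℝ) := by exact_mod_cast abs_nonneg (m v)
  have h1 : ContinuousAt (fun w : ℂ => Complex.Gamma (w + ((|m v| : ℤ) : ℂ))) w := by
    have h2 : DifferentiableAt ℂ Complex.Gamma (w + ((|m v| : ℤ) : ℂ)) := by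
      apply Complex.differentiableAt_Gamma
      intro j hj
      have h3 := congrArg Complex.re hj
      have h4 : (w + ((|m v| : ℤ) : ℂ)).re = w.re + ((|m v| : ℤ) : ℝ) := by simp
      rw [h4] at h3
      have h5 : (-(j : ℂ)).re = -(j : ℝ) := by simp
      rw [h5] at h3
      have h6 : (0 : ℝ) ≤ j := Nat.cast_nonneg j
      linarith
    exact ContinuousAt.comp (f := fun w : ℂ => w + ((|m v| : ℤ) : ℂ)) h2.continuousAt
      (continuousAt_id.add continuousAt_const)
  have h7 : ContinuousAt (fun w : ℂ => (2 * (π : ℂ)) ^ (-w)) w := by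
    apply ContinuousAt.const_cpow continuousAt_id.neg
    left
    have : (2 * (π : ℂ)) = ((2 * π : ℝ) : ℂ) := by push_cast; ring
    rw [this]
    exact_mod_cast (by positivity : (2 * π : ℝ) ≠ 0)
  unfold gg
  exact ((continuousAt_id.mul (continuousAt_id.sub continuousAt_const)).mul h1).mul h7

theorem pf_KSM (oDSM : Pool.Agent.H23.CM4.T_DSM) : T_KSMc := by
  intro k _ _ K _ _ m D c s hD1 hc hs0 hs1
  obtain ⟨-, hn1, hsum⟩ := oDSM K
  have hD : 0 < D := lt_of_lt_of_le one_pos hD1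
  obtain ⟨CG, hCG, hCGb⟩ := ksm_GM m
  set n : ℕ := Fintype.card (Pl k) with hn
  have hsum2 : Summable (fun J : (Ideal (𝓞 K))⁰ => nJ J ^ (-(2 : ℝ))) := hsum 2 (by norm_num)
  have hnpos : ∀ J : (Ideal (𝓞 K))⁰, 0 < nJ J := fun J => lt_of_lt_of_le one_pos (hn1 J)
  -- the ideals are countable
  have hcount : Countable (Ideal (𝓞 K))⁰ := by
    have h1 := hsum2.countable_support
    have h2 : Function.support (fun J : (Ideal (𝓞 K))⁰ => nJ J ^ (-(2 : ℝ))) = Set.univ := by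
      ext J
      simp only [Function.mem_support, Set.mem_univ, iff_true]
      exact (Real.rpow_pos_of_pos (hnpos J) _).ne'
    rw [h2] at h1
    exact Set.countable_univ_iff.1 h1
  set g0 : ℝ → ℂ := fun t => GM m (2 + t * I) * (D : ℂ) ^ ((2 + (t : ℂ) * I) / 2) *
    (cexp ((2 + t * I - s) ^ 2) / (2 + t * I - s)) with hg0
  have hne : ∀ t : ℝ, (2 + (t : ℂ) * I - s) ≠ 0 := by
    intro t h
    have := congrArg Complex.re h
    simp at this
    linarith
  have hcont0 : Continuous g0 := by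
    rw [continuous_iff_continuousAt]
    intro t
    have hl : ContinuousAt (fun t : ℝ => (2 : ℂ) + (t : ℂ) * I) t := by fun_prop
    have h1 : ContinuousAt (fun t : ℝ => GM m (2 + (t : ℂ) * I)) t := by
      have h2 : ContinuousAt (fun w : ℂ => GM m w) (2 + (t : ℂ) * I) :=
        ksm_cont m (2 + (t : ℂ) * I) (by simp)
      exact ContinuousAt.comp (f := fun t : ℝ => (2 : ℂ) + (t : ℂ) * I) h2 hl
    have h3 : ContinuousAt (fun t : ℝ => (D : ℂ) ^ ((2 + (t : ℂ) * I) / 2)) t := by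
      apply ContinuousAt.const_cpow (hl.div_const 2)
      left
      exact_mod_cast hD.ne'
    have h4 : ContinuousAt (fun t : ℝ => cexp ((2 + (t : ℂ) * I - s) ^ 2) /
        (2 + (t : ℂ) * I - s)) t := by
      have h5 : ContinuousAt (fun t : ℝ => cexp ((2 + (t : ℂ) * I - s) ^ 2)) t :=
        ((hl.sub continuousAt_const).pow 2).cexp
      have h6 : ContinuousAt (fun t : ℝ => (2 : ℂ) + (t : ℂ) * I - s) t :=
        hl.sub continuousAt_const
      exact h5.div h6 (hne t)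
    exact (h1.mul h3).mul h4
  -- the bound of the integrand
  set C0 : ℝ := D * (CG * ((2 * n).factorial * Real.exp 2)) *
    (Real.exp ((2 - s.re) ^ 2) / (2 - s.re)) * Real.exp (1 + s.im ^ 2) with hC0
  have hσ : 0 < 2 - s.re := by linarith
  have hbound : ∀ t : ℝ, ‖g0 t‖ ≤ C0 * Real.exp (-(1 / 4) * t ^ 2) := by
    intro t
    have hA : ‖GM m (2 + (t : ℂ) * I)‖ ≤
        CG * ((2 * n).factorial * Real.exp 2) * Real.exp |t| := by
      have h1 : ‖GM m (2 + (t : ℂ) * I)‖ ≤ CG * ((2 + |t|) ^ 2) ^ n := hCGb t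
      have h2 : (2 + |t|) ^ (2 * n) / ((2 * n).factorial : ℝ) ≤ Real.exp (2 + |t|) :=
        Real.pow_div_factorial_le_exp _ (by positivity) _
      rw [div_le_iff₀ (by positivity), Real.exp_add] at h2
      calc ‖GM m (2 + (t : ℂ) * I)‖ ≤ CG * (2 + |t|) ^ (2 * n) := by rw [pow_mul]; exact h1
        _ ≤ CG * (Real.exp 2 * Real.exp |t| * ((2 * n).factorial : ℝ)) :=
            mul_le_mul_of_nonneg_left h2 hCG
        _ = _ := by ring
    have hB : ‖(D : ℂ) ^ ((2 + (t : ℂ) * I) / 2)‖ = D := by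
      rw [Complex.norm_cpow_eq_rpow_re_of_pos hD]
      have : ((2 + (t : ℂ) * I) / 2).re = 1 := by simp
      rw [this, Real.rpow_one]
    have hCd : ‖cexp ((2 + (t : ℂ) * I - s) ^ 2) / (2 + (t : ℂ) * I - s)‖ ≤
        Real.exp ((2 - s.re) ^ 2) / (2 - s.re) * Real.exp (-(t - s.im) ^ 2) := by
      rw [norm_div, Complex.norm_exp]
      have h1 : ((2 + (t : ℂ) * I - s) ^ 2).re = (2 - s.re) ^ 2 - (t - s.im) ^ 2 := by
        rw [pow_two, Complex.mul_re]
        simp
        ring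
      have h2 : 2 - s.re ≤ ‖2 + (t : ℂ) * I - s‖ := by
        have h3 := Complex.re_le_norm (2 + (t : ℂ) * I - s)
        simpa using h3
      rw [h1]
      calc Real.exp ((2 - s.re) ^ 2 - (t - s.im) ^ 2) / ‖2 + (t : ℂ) * I - s‖
          ≤ Real.exp ((2 - s.re) ^ 2 - (t - s.im) ^ 2) / (2 - s.re) :=
            div_le_div_of_nonneg_left (Real.exp_pos _).le hσ h2
        _ = _ := by
            rw [sub_eq_add_neg ((2 - s.re) ^ 2), Real.exp_add]
            ring
    have hE : Real.exp |t| * Real.exp (-(t - s.im) ^ 2) ≤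
        Real.exp (1 + s.im ^ 2) * Real.exp (-(1 / 4) * t ^ 2) := by
      rw [← Real.exp_add, ← Real.exp_add]
      apply Real.exp_le_exp.2
      have h1 : |t| ^ 2 = t ^ 2 := sq_abs t
      nlinarith [sq_nonneg (|t| - 2), sq_nonneg (t - 2 * s.im)]
    rw [hg0]
    simp only []
    rw [norm_mul, norm_mul, hB]
    calc ‖GM m (2 + (t : ℂ) * I)‖ * D *
          ‖cexp ((2 + (t : ℂ) * I - s) ^ 2) / (2 + (t : ℂ) * I - s)‖
        ≤ (CG * ((2 * n).factorial * Real.exp 2) * Real.exp |t|) * D *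
          (Real.exp ((2 - s.re) ^ 2) / (2 - s.re) * Real.exp (-(t - s.im) ^ 2)) := by
          gcongr
      _ = D * (CG * ((2 * n).factorial * Real.exp 2)) * (Real.exp ((2 - s.re) ^ 2) / (2 - s.re)) *
          (Real.exp |t| * Real.exp (-(t - s.im) ^ 2)) := by ring
      _ ≤ D * (CG * ((2 * n).factorial * Real.exp 2)) * (Real.exp ((2 - s.re) ^ 2) / (2 - s.re)) *
          (Real.exp (1 + s.im ^ 2) * Real.exp (-(1 / 4) * t ^ 2)) := by
          gcongr
      _ = C0 * Real.exp (-(1 / 4) * t ^ 2) := by rw [hC0]; ring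
  have hgauss : Integrable (fun t : ℝ => C0 * Real.exp (-(1 / 4) * t ^ 2)) :=
    (integrable_exp_neg_mul_sq (by norm_num : (0 : ℝ) < 1 / 4)).const_mul C0
  have hint0 : Integrable g0 :=
    hgauss.mono' hcont0.aestronglyMeasurable (Filter.Eventually.of_forall hbound)
  -- the terms
  set F : (Ideal (𝓞 K))⁰ → ℝ → ℂ := fun J t =>
    (c J * (nJ J : ℂ) ^ (-(2 + (t : ℂ) * I))) * g0 t with hF
  have hnormc : ∀ (J : (Ideal (𝓞 K))⁰) (t : ℝ),
      ‖c J * (nJ J : ℂ) ^ (-(2 + (t : ℂ) * I))‖ ≤ nJ J ^ (-(2 : ℝ)) := by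
    intro J t
    rw [norm_mul, Complex.norm_cpow_eq_rpow_re_of_pos (hnpos J)]
    have : (-(2 + (t : ℂ) * I)).re = -2 := by simp
    rw [this]
    exact mul_le_of_le_one_left (Real.rpow_nonneg (hnpos J).le _) (hc J)
  have hcontc : ∀ J : (Ideal (𝓞 K))⁰,
      Continuous (fun t : ℝ => c J * (nJ J : ℂ) ^ (-(2 + (t : ℂ) * I))) := by
    intro J
    apply continuous_const.mul
    apply Continuous.const_cpow (by fun_prop)
    left
    exact_mod_cast (hnpos J).ne'
  have hFle : ∀ (J : (Ideal (𝓞 K))⁰) (t : ℝ), ‖F J t‖ ≤ nJ J ^ (-(2 : ℝ)) * ‖g0 t‖ := by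
    intro J t
    rw [hF]
    simp only []
    rw [norm_mul]
    exact mul_le_mul_of_nonneg_right (hnormc J t) (norm_nonneg _)
  have hFint : ∀ J, Integrable (F J) := by
    intro J
    exact (hint0.norm.const_mul (nJ J ^ (-(2 : ℝ)))).mono'
      ((hcontc J).mul hcont0).aestronglyMeasurable (Filter.Eventually.of_forall (hFle J))
  have hFsum : Summable (fun J => ∫ t, ‖F J t‖) := by
    refine Summable.of_nonneg_of_le (fun J => integral_nonneg fun t => norm_nonneg _)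
      (fun J => ?_) (hsum2.mul_right (∫ t, ‖g0 t‖))
    rw [← integral_const_mul]
    exact integral_mono (hFint J).norm (hint0.norm.const_mul _) (hFle J)
  have hmain := hasSum_integral_of_summable_integral_norm hFint hFsum
  have hmain2 := hmain.mul_left (((1 / (2 * π) : ℝ) : ℂ))
  have hterm : ∀ J : (Ideal (𝓞 K))⁰, ((1 / (2 * π) : ℝ) : ℂ) * ∫ t, F J t =
      c J * Km m s ((nJ J / Real.sqrt (D) : ℝ) : ℂ) := by
    intro J
    unfold Km
    have h1 : ∫ t, F J t = c J * ∫ t : ℝ, GM m (2 + t * I) *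
        (cexp ((2 + t * I - s) ^ 2) / (2 + t * I - s)) *
        ((nJ J / Real.sqrt (D) : ℝ) : ℂ) ^ (-(2 + t * I)) := by
      rw [← integral_const_mul (c J)]
      apply integral_congr_ae
      refine Filter.Eventually.of_forall fun t => ?_
      simp only [hF, hg0]
      rw [Pool.Agent.H2.CM4.ksm_cpow _ _ (hnpos J) hD]
      ring
    rw [h1]
    ring
  have htot : (∫ t, ∑' J, F J t) = ∫ t : ℝ, (GM m (2 + t * I) *
        (D : ℂ) ^ ((2 + t * I) / 2) * ∑' J : (Ideal (𝓞 K))⁰, c J * (nJ J : ℂ) ^ (-(2 + t * I))) *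
        (cexp ((2 + t * I - s) ^ 2) / (2 + t * I - s)) := by
    apply integral_congr_ae
    refine Filter.Eventually.of_forall fun t => ?_
    simp only [hF]
    rw [tsum_mul_right, hg0]
    ring
  rw [htot] at hmain2
  have he : (fun J : (Ideal (𝓞 K))⁰ => c J * Km m s ((nJ J / Real.sqrt (D) : ℝ) : ℂ)) =
      fun J => ((1 / (2 * π) : ℝ) : ℂ) * ∫ t, F J t := funext fun J => (hterm J).symm
  rw [he]
  exact hmain2

end Pool.Agent.H72.CMC
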