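import Pool.Agent.H95.CMC.Targets
import Pool.Agent.H63.CM4.CQFX

/-!
# Row F_QFL of the board cm4_modules: the form of a lattice of integers
-/

set_option autoImplicit false

open MeasureTheory Set Filter NumberField
open scoped Real nonZeroDivisors
open Pool.Agent.H65.CM4 Pool.Agent.H65.CMC Pool.Agent.H95.CMC
open Pool.Agent.H95.CM (lin lin_add lin_smul Nr mem_Nr un T_COV T_HUR T_TPE T_MEM T_IXL T_NTP
  T_NF2 T_DTW T_QNV T_UNI T_CYC T_NRI T_HBD)

namespace Pool.Agent.H72.CMC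

/-- the combination of two elements of a lattice -/
theorem qfl_lin_mem {k K : Type} [Field k] [NumberField k] [Field K] [NumberField K] [Algebra k K]
    (I : Sl k K) (v w : 𝓞 K) (hv : v ∈ I) (hw : w ∈ I) (u : V2 k) :
    ∃ x ∈ I, (x : K) = lin (v : K) (w : K) u := by
  refine ⟨u.1 • v + u.2 • w, I.add_mem (I.smul_mem _ hv) (I.smul_mem _ hw), ?_⟩
  rw [Algebra.smul_def, Algebra.smul_def]
  unfold lin
  push_cast
  rfl

/-- the form of a lattice -/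
theorem pf_QFL (hNF2 : T_NF2) (hNTP : T_NTP) : T_QFL := by
  intro k K _ _ _ _ _ _ _ _ I v w b₁ b₂ ν hv hw hlin hb₁ hb₂ hdiv hν hνpos hm
  have hbk₁ : (b₁ : k) ≠ 0 := by exact_mod_cast hb₁.ne'
  have hbk₂ : (b₂ : k) ≠ 0 := by exact_mod_cast hb₂.ne'
  have hbK₁ : (b₁ : K) ≠ 0 := by exact_mod_cast hb₁.ne'
  obtain ⟨v₀⟩ : Nonempty (Pl k) := inferInstance
  have hν0 : (ν : k) ≠ 0 := by
    intro h
    have := hνpos v₀
    rw [h, map_zero] at this
    exact lt_irrefl _ this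
  have hν0' : ν ≠ 0 := fun h => hν0 (by rw [h]; rfl)
  obtain ⟨p, q, r, hp, hr, hnorm, -⟩ := hNF2 k K (v : K) (w : K) hlin
  set m : Ideal (𝓞 k) := ns I with hmdef
  -- the cofactor
  obtain ⟨m', hm'⟩ : m ∣ Ideal.span {ν} := by
    rw [Ideal.dvd_span_singleton]
    exact hν
  have hdvd : Ideal.absNorm m' ∣ b₂ := by
    refine hm _ ?_
    rw [hm', map_mul, mul_comm]
  have hbm' : ((b₂ : ℕ) : 𝓞 k) ∈ m' := by
    have h1 : ((Ideal.absNorm m' : ℕ) : 𝓞 k) ∈ m' := Ideal.absNorm_mem m'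
    obtain ⟨c, hc⟩ := hdvd
    rw [hc]
    push_cast
    exact m'.mul_mem_right _ h1
  have hquot : ∀ y ∈ m, ∃ g : 𝓞 k, (b₂ : 𝓞 k) * y = ν * g := by
    intro y hy
    have h1 : y * (b₂ : 𝓞 k) ∈ m * m' := Ideal.mul_mem_mul hy hbm'
    rw [← hm', Ideal.mem_span_singleton] at h1
    obtain ⟨g, hg⟩ := h1
    exact ⟨g, by rw [mul_comm, hg]⟩
  -- the norms
  have hN : ∀ z ∈ I, ∃ N ∈ m, ((N : 𝓞 k) : k) = Algebra.norm k (z : K) := by
    intro z hz
    exact ⟨Algebra.intNorm (𝓞 k) (𝓞 K) z, Ideal.subset_span ⟨z, hz, rfl⟩,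
      Algebra.algebraMap_intNorm (A := 𝓞 k) (K := k) (L := K) (B := 𝓞 K) z⟩
  have hg : ∀ z ∈ I, ∃ g : 𝓞 k, (b₂ : k) * Algebra.norm k (z : K) = (ν : k) * (g : k) := by
    intro z hz
    obtain ⟨N, hNm, hNz⟩ := hN z hz
    obtain ⟨g, hg⟩ := hquot N hNm
    refine ⟨g, ?_⟩
    rw [← hNz]
    have := congrArg (fun t : 𝓞 k => (t : k)) hg
    push_cast at this
    exact this
  obtain ⟨gv, hgv⟩ := hg v hv
  obtain ⟨gw, hgw⟩ := hg w hw
  obtain ⟨gs, hgs⟩ := hg (v + w) (I.add_mem hv hw)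
  rw [← hp] at hgv
  rw [← hr] at hgw
  have hs : Algebra.norm k ((v + w : 𝓞 K) : K) = p + q + r := by
    have h1 := hnorm 1 1
    rw [map_one, one_mul, one_mul] at h1
    push_cast
    rw [h1]
    ring
  rw [hs] at hgs
  set Q : QF k := (gv, gs - gv - gw, gw) with hQ
  have hval : ∀ u : V2 k, (ν : k) * ((val Q u : 𝓞 k) : k) =
      b₂ * Algebra.norm k (lin (v : K) (w : K) u) := by
    intro u
    have e1 : Algebra.norm k (lin (v : K) (w : K) u) = p * (u.1 : k) ^ 2 + q * ((u.1 : k) * (u.2 : k)) +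
        r * (u.2 : k) ^ 2 := hnorm _ _
    rw [e1]
    have e2 : ((val Q u : 𝓞 k) : k) = (gv : k) * (u.1 : k) ^ 2 +
        ((gs : k) - gv - gw) * ((u.1 : k) * (u.2 : k)) + gw * (u.2 : k) ^ 2 := by
      simp only [val, hQ]
      push_cast
      ring
    rw [e2]
    linear_combination (-(u.1 : k) ^ 2 + (u.1 : k) * (u.2 : k)) * hgv -
      (u.1 : k) * (u.2 : k) * hgs + (-(u.2 : k) ^ 2 + (u.1 : k) * (u.2 : k)) * hgw
  have hnrm : ∀ u : V2 k, Algebra.norm k (lin ((v : K) / b₁) ((w : K) / b₁) u) =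
      (ν : k) / ((b₁ ^ 2 * b₂ : ℕ) : k) * ((val Q u : 𝓞 k) : k) := by
    intro u
    rw [Pool.Agent.H63.CM4.lin_div, Pool.Agent.H63.CM4.norm_div_nat]
    have := hval u
    push_cast
    field_simp
    rw [this]
    ring
  refine ⟨Q, ⟨?_, rfl, ?_, ?_, ?_, hnrm, ?_⟩⟩
  · intro u
    obtain ⟨x, hx, ex⟩ := qfl_lin_mem I v w hv hw u
    refine ⟨((b₁ * b₂ : ℕ) : 𝓞 k) • x, I.smul_mem _ hx, ?_⟩
    rw [lin_smul, Pool.Agent.H63.CM4.lin_div, ← ex, Algebra.smul_def]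
    push_cast
    field_simp
  · intro x hx
    obtain ⟨u, hu⟩ := hdiv x hx
    refine ⟨u, ?_⟩
    rw [Pool.Agent.H63.CM4.lin_div, ← hu]
    field_simp
  · intro u hu
    rw [Pool.Agent.H63.CM4.lin_div, div_eq_zero_iff] at hu
    have hu' : lin (v : K) (w : K) u = 0 := by
      rcases hu with h | h
      · exact h
      · exact absurd h hbK₁
    obtain ⟨h1, h2⟩ := hlin _ _ hu'
    exact Prod.ext (by exact_mod_cast h1) (by exact_mod_cast h2)
  · intro j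
    rw [map_div₀, map_natCast]
    have : (0 : ℝ) < ((b₁ ^ 2 * b₂ : ℕ) : ℝ) := by positivity
    exact div_pos (hνpos j) this
  · -- the content
    set J : Ideal (𝓞 k) := Ideal.span {a : 𝓞 k |
      ∃ u ∈ ls ((v : K) / b₁) ((w : K) / b₁) I, val Q u = a} with hJ
    have key : ∀ y ∈ m, ∃ e ∈ J, ((b₁ ^ 2 * b₂ : ℕ) : 𝓞 k) * y = ν * e := by
      intro y hy
      have hy' : y ∈ Ideal.span (Algebra.intNorm (𝓞 k) (𝓞 K) '' (I : Set (𝓞 K))) := hy
      refine Submodule.span_induction (p := fun y _ => ∃ e ∈ J, ((b₁ ^ 2 * b₂ : ℕ) : 𝓞 k) * y =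
        ν * e) ?_ ?_ ?_ ?_ hy'
      · rintro _ ⟨z, hz, rfl⟩
        obtain ⟨u, hu⟩ := hdiv z hz
        have hu' : lin ((v : K) / b₁) ((w : K) / b₁) u = (z : K) := by
          rw [Pool.Agent.H63.CM4.lin_div, ← hu]
          field_simp
        refine ⟨val Q u, Ideal.subset_span ⟨u, ⟨z, hz, hu'.symm⟩, rfl⟩, ?_⟩
        apply RingOfIntegers.coe_injective
        have e1 : ((Algebra.intNorm (𝓞 k) (𝓞 K) z : 𝓞 k) : k) = Algebra.norm k (z : K) :=
          Algebra.algebraMap_intNorm (A := 𝓞 k) (K := k) (L := K) (B := 𝓞 K) z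
        have e2 := hnrm u
        rw [hu', ← e1] at e2
        have hbb : ((b₁ ^ 2 * b₂ : ℕ) : k) ≠ 0 := by
          push_cast
          exact mul_ne_zero (pow_ne_zero _ hbk₁) hbk₂
        rw [map_mul, map_mul, map_natCast]
        change ((b₁ ^ 2 * b₂ : ℕ) : k) * ((Algebra.intNorm (𝓞 k) (𝓞 K) z : 𝓞 k) : k) = _
        rw [e2]
        field_simp
      · exact ⟨0, J.zero_mem, by ring⟩
      · rintro x y _ _ ⟨e, he, hxe⟩ ⟨f, hf, hyf⟩
        exact ⟨e + f, J.add_mem he hf, by rw [mul_add, hxe, hyf]; ring⟩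
      · rintro c x _ ⟨e, he, hxe⟩
        refine ⟨c * e, J.mul_mem_left _ he, ?_⟩
        rw [smul_eq_mul]
        linear_combination c * hxe
    obtain ⟨e, he, hbe⟩ := key ν hν
    have : ((b₁ ^ 2 * b₂ : ℕ) : 𝓞 k) = e := by
      apply mul_left_cancel₀ hν0'
      rw [mul_comm, hbe]
    rw [this]
    exact he

end Pool.Agent.H72.CMC
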