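import Pool.Agent.H95.CMC.Targets

/-!
# Row F_TAB of the board cm4_modules: the translation of the lines by an element on which the
character is not trivial
-/

set_option autoImplicit false

open MeasureTheory Set Filter NumberField
open scoped Real nonZeroDivisors
open Pool.Agent.H65.CM4 Pool.Agent.H65.CMC Pool.Agent.H95.CMC
open Pool.Agent.H95.CM (lin lin_add lin_smul Nr mem_Nr un T_COV T_HUR T_TPE T_MEM T_IXL T_NTP
  T_NF2 T_DTW T_QNV T_UNI T_CYC T_NRI T_HBD)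

namespace Pool.Agent.H72.CMC

theorem tab_prTo_mul {k K : Type} [Field k] [Field K] [Algebra k K] (f : Ideal (𝓞 k)) (a l : 𝓞 K)
    (ha : PrTo f (Ideal.span {a})) (hl : PrTo f (Ideal.span {l})) :
    PrTo f (Ideal.span {a * l}) := by
  obtain ⟨ha0, ha1⟩ := ha
  obtain ⟨hl0, hl1⟩ := hl
  rw [← Ideal.span_singleton_mul_span_singleton]
  refine ⟨mul_ne_zero ha0 hl0, ?_⟩
  rw [← Ideal.isCoprime_iff_sup_eq] at ha1 hl1 ⊢
  exact ha1.mul_left hl1

theorem tab_mem_lp {k K : Type} [Field k] [NumberField k] [Field K] [NumberField K] [Algebra k K]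
    (P f : Ideal (𝓞 k)) (I : Ideal (𝓞 K)) (l x : 𝓞 K) :
    x ∈ lp P f I (ln f I l) ↔ ∃ p ∈ P, x - algebraMap (𝓞 k) (𝓞 K) p * l ∈
      f.map (algebraMap (𝓞 k) (𝓞 K)) * I := by
  constructor
  · intro hx
    unfold Pool.Agent.H95.CMC.lp at hx
    obtain ⟨y, hy, z, hz, rfl⟩ := Submodule.mem_sup.1 hx
    have h1 : ∃ p ∈ P, y - algebraMap (𝓞 k) (𝓞 K) p * l ∈
        f.map (algebraMap (𝓞 k) (𝓞 K)) * I := by
      refine Submodule.smul_induction_on hy ?_ ?_
      · rintro r hr n ⟨c, hc⟩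
        refine ⟨r * c, P.mul_mem_right _ hr, ?_⟩
        have h2 : r • n - algebraMap (𝓞 k) (𝓞 K) (r * c) * l =
            algebraMap (𝓞 k) (𝓞 K) r * (n - algebraMap (𝓞 k) (𝓞 K) c * l) := by
          rw [map_mul, Algebra.smul_def]
          ring
        rw [h2]
        exact Ideal.mul_mem_left _ _ hc
      · rintro u v ⟨p, hp, hu⟩ ⟨p', hp', hv⟩
        refine ⟨p + p', P.add_mem hp hp', ?_⟩
        have h2 : u + v - algebraMap (𝓞 k) (𝓞 K) (p + p') * l =
            (u - algebraMap (𝓞 k) (𝓞 K) p * l) + (v - algebraMap (𝓞 k) (𝓞 K) p' * l) := by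
          rw [map_add]
          ring
        rw [h2]
        exact Ideal.add_mem _ hu hv
    obtain ⟨p, hp, hpy⟩ := h1
    refine ⟨p, hp, ?_⟩
    have h2 : y + z - algebraMap (𝓞 k) (𝓞 K) p * l =
        (y - algebraMap (𝓞 k) (𝓞 K) p * l) + z := by ring
    rw [h2]
    exact Ideal.add_mem _ hpy hz
  · rintro ⟨p, hp, hx⟩
    have hl : l ∈ ln f I l := ⟨1, by simp⟩
    have h1 : x = p • l + (x - algebraMap (𝓞 k) (𝓞 K) p * l) := by
      rw [Algebra.smul_def]
      ring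
    rw [h1]
    exact Submodule.add_mem_sup (Submodule.smul_mem_smul hp hl) hx

theorem pf_TAB (hLNB : T_LNB) (hRHO : T_RHO) : T_TAB := by
  classical
  intro k K _ _ _ _ _ _ _ _ Φ f m ψ I hE hψ hfI P hP hPf
  obtain ⟨hL1, hL2, hL3⟩ := hLNB k K f I hψ.fne hfI
  obtain ⟨hty1, hty2, hrh, -⟩ := hRHO k K Φ f m ψ I hE hψ hfI
  obtain ⟨a, n, haf, han, hne⟩ := hψ.prm P hP hPf
  set F : Ideal (𝓞 K) := f.map (algebraMap (𝓞 k) (𝓞 K)) with hF
  have ha0 : a ≠ 0 := by
    intro h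
    apply haf.1
    rw [h]
    simp
  have haK : ((a : 𝓞 K) : K) ≠ 0 := fun h => ha0 (RingOfIntegers.ext h)
  have hta : ty Φ m (a : K) ≠ 0 := by
    intro h
    have := hty1 (a : K) haK
    rw [h, norm_zero] at this
    exact zero_ne_one this
  -- the inverse modulo the cofactor
  obtain ⟨f', hf'⟩ := hPf
  have hinv : ∃ n' : 𝓞 k, 1 - n * n' ∈ f' := by
    have hP0 : P ≠ ⊥ := by
      intro h
      apply hψ.fne
      rw [hf', h]
      simp
    have hPK : P.map (algebraMap (𝓞 k) (𝓞 K)) ≠ ⊥ := by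
      intro h
      exact hP0 ((Ideal.map_eq_bot_iff_of_injective
        (FaithfulSMul.algebraMap_injective (𝓞 k) (𝓞 K))).1 h)
    have hFm : F = P.map (algebraMap (𝓞 k) (𝓞 K)) * f'.map (algebraMap (𝓞 k) (𝓞 K)) := by
      rw [hF, hf', Ideal.map_mul]
    have h1 : P.map (algebraMap (𝓞 k) (𝓞 K)) * Ideal.span {a - algebraMap (𝓞 k) (𝓞 K) n} ≤
        P.map (algebraMap (𝓞 k) (𝓞 K)) * f'.map (algebraMap (𝓞 k) (𝓞 K)) := by
      rw [← hFm, Ideal.mul_le]
      intro r hr s hs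
      obtain ⟨c, rfl⟩ := Ideal.mem_span_singleton.1 hs
      have h2 : (a - algebraMap (𝓞 k) (𝓞 K) n) * r ∈ F := by
        have h3 : r ∈ Submodule.span (𝓞 K) (algebraMap (𝓞 k) (𝓞 K) '' (P : Set (𝓞 k))) := hr
        refine Submodule.span_induction (p := fun r _ => (a - algebraMap (𝓞 k) (𝓞 K) n) * r ∈ F)
          ?_ ?_ ?_ ?_ h3
        · rintro _ ⟨x, hx, rfl⟩
          exact han x hx
        · simp
        · intro x y _ _ hx hy
          rw [mul_add]
          exact F.add_mem hx hy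
        · intro c x _ hx
          have h4 : (a - algebraMap (𝓞 k) (𝓞 K) n) * (c • x) =
              c * ((a - algebraMap (𝓞 k) (𝓞 K) n) * x) := by
            rw [smul_eq_mul]
            ring
          rw [h4]
          exact F.mul_mem_left _ hx
      have h5 : r * ((a - algebraMap (𝓞 k) (𝓞 K) n) * c) =
          c * ((a - algebraMap (𝓞 k) (𝓞 K) n) * r) := by ring
      rw [h5]
      exact F.mul_mem_left _ h2
    have h6 : Ideal.span {a - algebraMap (𝓞 k) (𝓞 K) n} ≤ f'.map (algebraMap (𝓞 k) (𝓞 K)) := by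
      rw [← Ideal.dvd_iff_le] at h1 ⊢
      exact (mul_dvd_mul_iff_left hPK).1 h1
    have h7 : a - algebraMap (𝓞 k) (𝓞 K) n ∈ f'.map (algebraMap (𝓞 k) (𝓞 K)) :=
      h6 (Ideal.mem_span_singleton_self _)
    have h8 : (Ideal.span {n} ⊔ f').map (algebraMap (𝓞 k) (𝓞 K)) = ⊤ := by
      rw [Ideal.map_sup, Ideal.map_span, Set.image_singleton, eq_top_iff, ← haf.2]
      apply sup_le
      · rw [Ideal.span_singleton_le_iff_mem]
        have h9 : a = algebraMap (𝓞 k) (𝓞 K) n + (a - algebraMap (𝓞 k) (𝓞 K) n) := by ring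
        rw [h9]
        exact Submodule.add_mem_sup (Ideal.mem_span_singleton_self _) h7
      · refine le_trans ?_ le_sup_right
        rw [hf', Ideal.map_mul]
        exact Ideal.mul_le_right
    have h10 : Ideal.span {n} ⊔ f' = ⊤ :=
      (Ideal.map_eq_top_iff (algebraMap (𝓞 k) (𝓞 K))
        (FaithfulSMul.algebraMap_injective (𝓞 k) (𝓞 K))
        (algebraMap_isIntegral_iff.2 inferInstance)).1 h8
    have h11 : (1 : 𝓞 k) ∈ Ideal.span {n} ⊔ f' := by rw [h10]; trivial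
    obtain ⟨y, hy, z, hz, hyz⟩ := Submodule.mem_sup.1 h11
    obtain ⟨c, rfl⟩ := Ideal.mem_span_singleton.1 hy
    refine ⟨c, ?_⟩
    rw [← hyz]
    simpa using hz
  obtain ⟨n', hn'⟩ := hinv
  -- the inverse of `a` modulo `F`
  obtain ⟨c, hc⟩ : ∃ c : 𝓞 K, 1 - c * a ∈ F := by
    have h11 : (1 : 𝓞 K) ∈ Ideal.span {a} ⊔ F := by rw [haf.2]; trivial
    obtain ⟨y, hy, z, hz, hyz⟩ := Submodule.mem_sup.1 h11
    obtain ⟨c, rfl⟩ := Ideal.mem_span_singleton.1 hy
    refine ⟨c, ?_⟩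
    rw [← hyz]
    have : a * c + z - c * a = z := by ring
    rw [this]
    exact hz
  set T : Sl k K → Sl k K := fun Λ =>
    if h : ∃ l ∈ I, PrTo f (Ideal.span {l}) ∧ Λ = ln f I l then ln f I (a * h.choose) else Λ
    with hT
  have hTs : ∀ Λ : Sl k K, Λ ∈ Ln f I → ∃ l ∈ I, PrTo f (Ideal.span {l}) ∧ Λ = ln f I l ∧
      T Λ = ln f I (a * l) := by
    intro Λ hΛ
    have h := (hL1 Λ).1 hΛ
    refine ⟨h.choose, h.choose_spec.1, h.choose_spec.2.1, h.choose_spec.2.2, ?_⟩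
    simp only [hT]
    rw [dif_pos h]
  refine ⟨ψ (Ideal.span {a}) / ty Φ m (a : K), T, ?_, ?_, ?_⟩
  · intro h
    rw [div_eq_one_iff_eq hta] at h
    exact hne h
  · intro Λ hΛ
    obtain ⟨l, hlI, hlf, hl, hTl⟩ := hTs Λ hΛ
    have halI : a * l ∈ I := I.mul_mem_left _ hlI
    have half : PrTo f (Ideal.span {a * l}) := tab_prTo_mul f a l haf hlf
    refine ⟨(hL1 _).2 ⟨a * l, halI, half, hTl⟩, ?_, ?_⟩
    · rw [hTl, hrh _ halI half, hl, hrh l hlI hlf, ← Ideal.span_singleton_mul_span_singleton,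
        hψ.mul]
      have h1 : ((a * l : 𝓞 K) : K) = (a : K) * (l : K) := map_mul (algebraMap (𝓞 K) K) a l
      rw [h1, hty2, mul_div_mul_comm]
    · rw [hTl, hl]
      ext x
      rw [tab_mem_lp, tab_mem_lp]
      constructor
      · rintro ⟨p, hp, hx⟩
        refine ⟨p * n, P.mul_mem_right _ hp, ?_⟩
        have h1 : x - algebraMap (𝓞 k) (𝓞 K) (p * n) * l =
            (x - algebraMap (𝓞 k) (𝓞 K) p * (a * l)) +
              ((a - algebraMap (𝓞 k) (𝓞 K) n) * algebraMap (𝓞 k) (𝓞 K) p) * l := by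
          rw [map_mul]
          ring
        rw [h1]
        exact Ideal.add_mem _ hx (Ideal.mul_mem_mul (han p hp) hlI)
      · rintro ⟨p, hp, hx⟩
        refine ⟨n' * p, P.mul_mem_left _ hp, ?_⟩
        have h1 : x - algebraMap (𝓞 k) (𝓞 K) (n' * p) * (a * l) =
            (x - algebraMap (𝓞 k) (𝓞 K) p * l) +
              (algebraMap (𝓞 k) (𝓞 K) (p * (1 - n * n')) * l -
              ((a - algebraMap (𝓞 k) (𝓞 K) n) * algebraMap (𝓞 k) (𝓞 K) (n' * p)) * l) := by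
          rw [map_mul, map_mul, map_sub, map_mul, map_one]
          ring
        rw [h1]
        refine Ideal.add_mem _ hx (Ideal.sub_mem _ (Ideal.mul_mem_mul ?_ hlI)
          (Ideal.mul_mem_mul (han _ (P.mul_mem_left _ hp)) hlI))
        apply Ideal.mem_map_of_mem
        rw [hf']
        exact Ideal.mul_mem_mul hp hn'
  · intro Λ Λ' hΛ hΛ' hTT
    obtain ⟨l, hlI, hlf, hl, hTl⟩ := hTs Λ hΛ
    obtain ⟨l', hlI', hlf', hl', hTl'⟩ := hTs Λ' hΛ'
    rw [hTl, hTl'] at hTT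
    have h1 : a * l' ∈ ln f I (a * l) := by
      rw [hTT]
      exact ⟨1, by simp⟩
    obtain ⟨n1, hn1⟩ := h1
    have h2 : l' ∈ Λ := by
      rw [hl]
      refine ⟨n1, ?_⟩
      have h3 : l' - algebraMap (𝓞 k) (𝓞 K) n1 * l =
          c * (a * l' - algebraMap (𝓞 k) (𝓞 K) n1 * (a * l)) +
            (1 - c * a) * (l' - algebraMap (𝓞 k) (𝓞 K) n1 * l) := by ring
      rw [h3]
      exact Ideal.add_mem _ (Ideal.mul_mem_left _ _ hn1)
        (Ideal.mul_mem_mul hc (I.sub_mem hlI' (I.mul_mem_left _ hlI)))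
    rw [hl']
    exact (hL2 l' hlI' hlf' Λ hΛ).1 h2

end Pool.Agent.H72.CMC
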