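import Pool.Agent.H89.CMC.Targets2
import Pool.Agent.H4.CM4.HE1

/-!
# Row E_HE1: the Hecke relation in the region of absolute convergence, weights `m`
-/

set_option autoImplicit false

open MeasureTheory Set Filter NumberField NumberField.InfinitePlace Pool.Agent.H65.CM4
  Pool.Agent.H65.CMC Pool.Agent.H89.CM4 Pool.Agent.H89.CMC
open scoped Real
open Pool.Agent.H4.CM4.HE

namespace Pool.Agent.H72.CMC

variable (k : Type) [Field k] [NumberField k] [IsTotallyReal k]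

/-- Row E_HE1. -/
theorem pf_HE1m (hEZA : T_EZAm k) (hCNL : T_CNL k) (hIXC : T_IXC k) (hQZR : T_QZR k)
    (hCRT : T_CRT k) (hFLS : T_FLS k) (hIDC : T_IDC k) : T_HE1m k := by
  classical
  intro b m M I g L' x y s hb hM hIg hL' hy hs1 hs2
  have hI : Sf b I := sf_left hIg
  have hg : Sf b g := sf_right hIg
  obtain ⟨c1, -, -⟩ := hCRT I g hI.ne hg.ne (sf_sup hIg)
  obtain ⟨hM0, -, hix⟩ := hIXC b M hb hM
  have aN : ∀ J : Ideal (𝓞 k), J ≠ ⊥ → Ideal.absNorm J ≠ 0 := fun J hJ h =>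
    hJ (Ideal.absNorm_eq_zero_iff.1 h)
  have nmp : ∀ J : Ideal (𝓞 k), J ≠ ⊥ → 0 < nm J := fun J hJ => by
    unfold nm
    exact_mod_cast Nat.pos_of_ne_zero (aN J hJ)
  obtain ⟨A, hA⟩ : ∃ A : ℝ, A = ix M * nm I := ⟨_, rfl⟩
  have hA0 : 0 < A := by
    rw [hA]
    exact mul_pos (by exact_mod_cast hM0) (nmp I hI.ne)
  have i1 : ∀ L ∈ Ls g, ix (M ⊓ (L' ⊓ L)) ≠ 0 ∧ (ix (M ⊓ (L' ⊓ L)) : ℝ) = A * nm g := by
    intro L hL
    have h1 := (hix (I * g) ⊤ (L' ⊓ L) hIg sf_top (sup_top_eq _) (c1 L' hL' L hL)).1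
    constructor
    · rw [h1]
      exact mul_ne_zero hM0.ne' (aN _ hIg.ne)
    · rw [h1, hA, map_mul]
      unfold nm
      push_cast
      ring
  have i2 : ∀ J ∈ dv g, J ≠ ⊥ ∧ ix (M ⊓ L' ⊓ kO J) ≠ 0 ∧
      (ix (M ⊓ L' ⊓ kO J) : ℝ) = A * nm J ^ 2 := by
    intro J hJ
    have hd : J ∣ g := (Finset.mem_filter.1 hJ).2
    have hJ' : Sf b J := sf_dvd hg hd
    have hIJ : I ⊔ J = ⊤ :=
      top_le_iff.1 (sf_sup hIg ▸ sup_le_sup_left (Ideal.le_of_dvd hd) _)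
    have h1 := (hix I J L' hI hJ' hIJ hL').2
    refine ⟨hJ'.ne, ?_, ?_⟩
    · rw [h1]
      exact mul_ne_zero (mul_ne_zero hM0.ne' (aN _ hI.ne)) (pow_ne_zero 2 (aN _ hJ'.ne))
    · rw [h1, hA]
      unfold nm
      push_cast
      ring
  -- the metric
  obtain ⟨q, hq⟩ : ∃ q : V2 k → ℝ, q = fun u =>
    (qn (fun v => (x v : ℂ)) (fun v => (y v : ℂ)) u).re := ⟨_, rfl⟩
  have hqn : ∀ u, u ≠ 0 → qn (fun v => (x v : ℂ)) (fun v => (y v : ℂ)) u = (q u : ℂ) ∧ 0 < q u := by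
    intro u hu
    obtain ⟨h1, h2⟩ := hQZR.1 x y u hy hu
    rw [hq]
    exact ⟨Complex.ext rfl (by rw [h1, Complex.ofReal_im]), h2⟩
  obtain ⟨T, hT⟩ : ∃ T : V2 k → ℂ, T = fun u => an m (fun v => (x v : ℂ)) (fun v => (y v : ℂ)) u *
    ((q u / (A * nm g) : ℝ) : ℂ) ^ (-s) := ⟨_, rfl⟩
  -- the lattices L
  have e1 : ∀ L ∈ Ls g, Summable (fun u : V2 k => if u ∈ M ⊓ (L' ⊓ L) ∧ u ∈ Fo k then T u else 0) ∧
      Zm s m (M ⊓ (L' ⊓ L)) x y = GM m s *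
        ∑' u : V2 k, if u ∈ M ⊓ (L' ⊓ L) ∧ u ∈ Fo k then T u else 0 := by
    intro L hL
    obtain ⟨h0, h1⟩ := i1 L hL
    have h2 := (hEZA m (M ⊓ (L' ⊓ L)) x y h0 hy).2 s hs1 hs2
    have h3 : (fun u : V2 k => if u ∈ M ⊓ (L' ⊓ L) ∧ u ∈ Fo k then
        an m (fun v => (x v : ℂ)) (fun v => (y v : ℂ)) u *
        (qn (fun v => (x v : ℂ)) (fun v => (y v : ℂ)) u / (ix (M ⊓ (L' ⊓ L)) : ℂ)) ^ (-s) else 0) =
        fun u : V2 k => if u ∈ M ⊓ (L' ⊓ L) ∧ u ∈ Fo k then T u else 0 := by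
      funext u
      by_cases hu : u ∈ M ⊓ (L' ⊓ L) ∧ u ∈ Fo k
      · rw [if_pos hu, if_pos hu, (hqn u hu.2.1).1, hT]
        have h4 : ((ix (M ⊓ (L' ⊓ L)) : ℕ) : ℂ) = ((A * nm g : ℝ) : ℂ) := by
          rw [← h1]
          push_cast
          rfl
        simp only
        rw [h4, Complex.ofReal_div]
      · rw [if_neg hu, if_neg hu]
    rw [h3] at h2
    exact h2
  -- the multiples of J
  have e2 : ∀ J ∈ dv g, Summable (fun u : V2 k => ((nm J : ℝ) : ℂ) *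
      if u ∈ M ⊓ L' ⊓ kO J ∧ u ∈ Fo k then T u else 0) ∧
      GM m s * ∑' u : V2 k, ((nm J : ℝ) : ℂ) *
        (if u ∈ M ⊓ L' ⊓ kO J ∧ u ∈ Fo k then T u else 0) =
      ((nm J : ℝ) : ℂ) ^ (1 - 2 * s) * ((nm g : ℝ) : ℂ) ^ s * Zm s m (M ⊓ L' ⊓ kO J) x y := by
    intro J hJ
    obtain ⟨hJ0, h0, h1⟩ := i2 J hJ
    obtain ⟨h2, h2'⟩ := (hEZA m (M ⊓ L' ⊓ kO J) x y h0 hy).2 s hs1 hs2
    have h3 : (fun u : V2 k => ((nm J : ℝ) : ℂ) *
        if u ∈ M ⊓ L' ⊓ kO J ∧ u ∈ Fo k then T u else 0) =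
        fun u : V2 k => (((nm J : ℝ) : ℂ) ^ (1 - 2 * s) * ((nm g : ℝ) : ℂ) ^ s) *
          if u ∈ M ⊓ L' ⊓ kO J ∧ u ∈ Fo k then
        an m (fun v => (x v : ℂ)) (fun v => (y v : ℂ)) u *
        (qn (fun v => (x v : ℂ)) (fun v => (y v : ℂ)) u / (ix (M ⊓ L' ⊓ kO J) : ℂ)) ^ (-s) else 0 := by
      funext u
      by_cases hu : u ∈ M ⊓ L' ⊓ kO J ∧ u ∈ Fo k
      · rw [if_pos hu, if_pos hu, (hqn u hu.2.1).1, hT]
        have h4 : ((ix (M ⊓ L' ⊓ kO J) : ℕ) : ℂ) = ((A * nm J ^ 2 : ℝ) : ℂ) := by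
          rw [← h1]
          push_cast
          rfl
        simp only
        rw [h4, ← Complex.ofReal_div]
        have h5 := pow_id (q u) A (nm J) (nm g) (hqn u hu.2.1).2 hA0 (nmp J hJ0) (nmp g hg.ne) s
        linear_combination an m (fun v => (x v : ℂ)) (fun v => (y v : ℂ)) u * h5
      · rw [if_neg hu, if_neg hu, mul_zero, mul_zero]
    rw [h3]
    refine ⟨h2.mul_left _, ?_⟩
    rw [tsum_mul_left, h2']
    ring
  rw [sum_lattices hCRT hIg hL', Finset.sum_congr rfl fun L hL => (e1 L hL).2, ← Finset.mul_sum,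
    ← Summable.tsum_finsetSum fun L hL => (e1 L hL).1,
    ← Finset.sum_congr rfl fun J hJ => (e2 J hJ).2, ← Finset.mul_sum,
    ← Summable.tsum_finsetSum fun J hJ => (e2 J hJ).1]
  congr 1
  refine tsum_congr fun u => ?_
  by_cases hu : u ∈ M ⊓ L' ∧ u ∈ Fo k
  · have h1 : ∀ L ∈ Ls g, (if u ∈ M ⊓ (L' ⊓ L) ∧ u ∈ Fo k then T u else 0) =
        if u ∈ L then T u else 0 := by
      intro L _
      by_cases h : u ∈ L
      · rw [if_pos h, if_pos ⟨⟨hu.1.1, ⟨hu.1.2, h⟩⟩, hu.2⟩]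
      · rw [if_neg h, if_neg fun h' => h h'.1.2.2]
    have h2 : ∀ J ∈ dv g, ((nm J : ℝ) : ℂ) *
        (if u ∈ M ⊓ L' ⊓ kO J ∧ u ∈ Fo k then T u else 0) =
        if u ∈ kO J then ((nm J : ℝ) : ℂ) * T u else 0 := by
      intro J _
      by_cases h : u ∈ kO J
      · rw [if_pos h, if_pos ⟨⟨hu.1, h⟩, hu.2⟩]
      · rw [if_neg h, if_neg fun h' => h h'.1.2, mul_zero]
    rw [Finset.sum_congr rfl h1, Finset.sum_congr rfl h2, ← Finset.sum_filter,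
      ← Finset.sum_filter, Finset.sum_const, ← Finset.sum_mul, nsmul_eq_mul]
    congr 1
    have h3 := hCNL g u hg.ne hg.sq
    have h4 := congrArg (fun r : ℝ => (r : ℂ)) h3
    simp only [Complex.ofReal_natCast, Complex.ofReal_sum] at h4
    exact h4
  · rw [Finset.sum_eq_zero, Finset.sum_eq_zero]
    · intro J _
      rw [if_neg fun h' => hu ⟨h'.1.1, h'.2⟩, mul_zero]
    · intro L _
      rw [if_neg fun h' => hu ⟨⟨h'.1.1, h'.1.2.1⟩, h'.2⟩]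

end Pool.Agent.H72.CMC
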